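import Pool.Agent.Helper85_Idx.Stmts

/-!
# FCNT: the counting argument
-/

set_option autoImplicit false

namespace Pool.Agent.Idx.H9

theorem fcnt : FcntStmt := by
  intro V hV m Dt hDt Good dat ed hinj hcard
  classical
  haveI : Fintype V := Fintype.ofFinite V
  haveI : Fintype Dt := Fintype.ofFinite Dt
  let P := V → Fin m → Bool
  have hinj2 : Function.Injective (fun x : Good × (Fin m → Bool) =>
      ((dat x.1.1, Function.update x.1.1 (ed (dat x.1.1)) x.2) : Dt × P)) := by
    rintro ⟨⟨h, hh⟩, y⟩ ⟨⟨h', hh'⟩, y'⟩ heq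
    simp only [Prod.mk.injEq] at heq
    obtain ⟨h1, h2⟩ := heq
    have h3 : h' = h := by
      apply hinj h hh h' hh' h1
      intro e he
      have := congrFun h2 e
      rw [Function.update_of_ne he, Function.update_of_ne (h1 ▸ he)] at this
      exact this.symm
    subst h3
    have h4 := congrFun h2 (ed (dat h'))
    rw [Function.update_self, Function.update_self] at h4
    rw [h4]
  have h1 := Nat.card_le_card_of_injective _ hinj2
  rw [Nat.card_prod, Nat.card_prod] at h1
  have h2 : Nat.card (Fin m → Bool) = 2 ^ m := by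
    rw [Nat.card_eq_fintype_card]; simp
  rw [h2] at h1
  have hpos : 0 < Nat.card P := Nat.card_pos
  have h3 : Nat.card P ≤ 2 * Nat.card Good := hcard
  have h4 : Nat.card P * 2 ^ m ≤ Nat.card P * (2 * Nat.card Dt) := by
    calc Nat.card P * 2 ^ m ≤ (2 * Nat.card Good) * 2 ^ m := Nat.mul_le_mul_right _ h3
      _ = 2 * (Nat.card Good * 2 ^ m) := by ring
      _ ≤ 2 * (Nat.card Dt * Nat.card P) := Nat.mul_le_mul_left _ h1
      _ = Nat.card P * (2 * Nat.card Dt) := by ring
  exact Nat.le_of_mul_le_mul_left h4 hpos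

end Pool.Agent.Idx.H9
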