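import Pool.Agent.Helper85_Idx.Stmts

/-!
# FEXP: the exponential wins
-/

set_option autoImplicit false

namespace Pool.Agent.Idx.H9

open Filter Topology

theorem poly_lt (C e : ℕ) : ∃ l₀ : ℕ, ∀ l, l₀ ≤ l → C * (l + 1) ^ e < 2 ^ l := by
  have h := tendsto_pow_const_div_const_pow_of_one_lt e (r := (2 : ℝ)) (by norm_num)
  have hpos : (0 : ℝ) < 1 / (2 * C + 1) := by positivity
  have h2 := h.eventually (gt_mem_nhds hpos)
  obtain ⟨N, hN⟩ := eventually_atTop.1 h2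
  refine ⟨N, fun l hl => ?_⟩
  have h3 := hN (l + 1) (by omega)
  have hp : (0 : ℝ) < 2 ^ (l + 1) := by positivity
  rw [div_lt_div_iff₀ hp (by positivity)] at h3
  have h4 : (C : ℝ) * ((l : ℝ) + 1) ^ e < 2 ^ l := by
    have h5 : (((l + 1 : ℕ) : ℝ)) ^ e * (2 * C + 1) < 1 * 2 ^ (l + 1) := h3
    push_cast at h5
    rw [pow_succ] at h5
    have h6 : (0 : ℝ) ≤ ((l : ℝ) + 1) ^ e := by positivity
    nlinarith
  exact_mod_cast h4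

theorem fexp : FexpStmt := by
  intro k K cF cV
  obtain ⟨l₀, hl₀⟩ := poly_lt (2 * (K + 1) ^ 2 * k * cF * ((k + 1) * (K + 1) ^ 2) ^ (3 * k) *
    2 ^ k * (K + 1) ^ (2 * k) * (cV * 2 * K * K)) (2 + 2 * (3 * k) + 2 * k)
  refine ⟨l₀, fun l hl n tw hn htw => ?_⟩
  have h1 := hl₀ l hl
  set M := (K + 1) * (l + 1) with hM
  have hn1 : n + 1 ≤ M := by
    rw [hM]; nlinarith
  have hM1 : 1 ≤ M := by omega
  have h2 : tw + 1 ≤ 2 * M ^ 2 * 4 ^ l := by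
    have a1 : (n + 1) ^ 2 * 4 ^ l ≤ M ^ 2 * 4 ^ l :=
      Nat.mul_le_mul_right _ (Nat.pow_le_pow_left hn1 2)
    have a2 : 1 ≤ M ^ 2 * 4 ^ l := Nat.one_le_iff_ne_zero.2 (by positivity)
    have a3 : 2 * M ^ 2 * 4 ^ l = M ^ 2 * 4 ^ l + M ^ 2 * 4 ^ l := by ring
    omega
  have h3 : (n + 1) * k * (n + 1) + 1 ≤ (k + 1) * M ^ 2 := by
    have a1 : (n + 1) * k * (n + 1) ≤ M * k * M :=
      Nat.mul_le_mul (Nat.mul_le_mul_right _ hn1) hn1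
    have a2 : 1 ≤ M ^ 2 := Nat.one_le_iff_ne_zero.2 (by positivity)
    have a3 : (k + 1) * M ^ 2 = M * k * M + M ^ 2 := by ring
    omega
  have h4 : (n + 1) * (n + 1) * k * cF ≤ M * M * k * cF := by
    gcongr
  have h5 : ((n + 1) * k * (n + 1) + 1) ^ (3 * k) ≤ ((k + 1) * M ^ 2) ^ (3 * k) :=
    Nat.pow_le_pow_left h3 _
  have h6 : (tw + 1) ^ k ≤ (2 * M ^ 2 * 4 ^ l) ^ k := Nat.pow_le_pow_left h2 _
  have h7 : 2 * ((n + 1) * (n + 1) * k * cF * (((n + 1) * k * (n + 1) + 1) ^ (3 * k)) *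
      ((tw + 1) ^ k) * (cV * 2 * K * K)) ≤
      2 * (M * M * k * cF * (((k + 1) * M ^ 2) ^ (3 * k)) *
      ((2 * M ^ 2 * 4 ^ l) ^ k) * (cV * 2 * K * K)) := by
    gcongr
  refine lt_of_le_of_lt h7 ?_
  have h8 : 2 * (M * M * k * cF * (((k + 1) * M ^ 2) ^ (3 * k)) *
      ((2 * M ^ 2 * 4 ^ l) ^ k) * (cV * 2 * K * K)) =
      (2 * (K + 1) ^ 2 * k * cF * ((k + 1) * (K + 1) ^ 2) ^ (3 * k) *
    2 ^ k * (K + 1) ^ (2 * k) * (cV * 2 * K * K)) * (l + 1) ^ (2 + 2 * (3 * k) + 2 * k) *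
      (4 ^ l) ^ k := by
    rw [hM]
    have e1 : (2 * ((K + 1) * (l + 1)) ^ 2 * 4 ^ l) ^ k =
        2 ^ k * (K + 1) ^ (2 * k) * (l + 1) ^ (2 * k) * (4 ^ l) ^ k := by
      rw [mul_pow, mul_pow, mul_pow, mul_pow, ← pow_mul, ← pow_mul]
      ring
    have e2 : ((k + 1) * ((K + 1) * (l + 1)) ^ 2) ^ (3 * k) =
        ((k + 1) * (K + 1) ^ 2) ^ (3 * k) * (l + 1) ^ (2 * (3 * k)) := by
      rw [mul_pow (K + 1) (l + 1) 2, ← mul_assoc, mul_pow, ← pow_mul]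
    rw [e1, e2, pow_add, pow_add]
    ring
  rw [h8]
  have h9 : 2 ^ ((2 * k + 1) * l) = 2 ^ l * (4 ^ l) ^ k := by
    have : (4 : ℕ) = 2 ^ 2 := by norm_num
    rw [this, ← pow_mul, ← pow_mul, ← pow_add]
    congr 1
    ring
  rw [h9]
  exact Nat.mul_lt_mul_of_pos_right h1 (by positivity)

end Pool.Agent.Idx.H9
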