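import Pool.Agent.Helper9_Idx.Tsum

/-!
# TDIS: disjoint ranges of leaves have different weights
-/

set_option autoImplicit false

namespace Pool.Agent.Idx.H9

theorem sum_take (L : List ℤ) (j : ℕ) :
    (L.take j).sum = ∑ k ∈ Finset.range j, L.getD k 0 := by
  induction L generalizing j with
  | nil => simp
  | cons a L ih =>
    cases j with
    | zero => simp
    | succ j =>
      rw [List.take_succ_cons, List.sum_cons, ih, Finset.sum_range_succ']
      simp [add_comm]

theorem sl_sum (L : List ℤ) (i j : ℕ) (h : i ≤ j) :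
    (sl L i j).sum = ∑ k ∈ Finset.Ico i j, L.getD k 0 := by
  have h1 : L.take j = L.take i ++ sl L i j := by
    unfold sl
    have : j = i + (j - i) := by omega
    conv_lhs => rw [this, List.take_add]
  have h2 := sum_take L j
  rw [h1, List.sum_append, sum_take] at h2
  rw [Finset.sum_Ico_eq_sub _ h]
  linarith

/-- entries of the list of leaves modulo `Q` -/
theorem leaves_mod {V : Type} (e : List Bool → V) (x : List Bool → ℤ) (F : ℕ → ℤ) (Q : ℤ)
    (hF : ∀ u, Q ∣ x u - F (pidx u)) (n : ℕ) (w : List Bool) :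
    (leaves (cbt e x n w)).length = 2 ^ n ∧ ∀ k, k < 2 ^ n →
      Q ∣ (leaves (cbt e x n w)).getD k 0 - F (2 ^ n * pidx w + k) := by
  induction n generalizing w with
  | zero =>
    rw [cbt, leaves]
    refine ⟨by simp, fun k hk => ?_⟩
    have : k = 0 := by simpa using hk
    subst this
    simpa using hF w
  | succ n ih =>
    obtain ⟨h1, h2⟩ := ih (w ++ [false])
    obtain ⟨h3, h4⟩ := ih (w ++ [true])
    rw [cbt, leaves]
    refine ⟨by rw [List.length_append, h1, h3]; ring, fun k hk => ?_⟩
    by_cases hk2 : k < 2 ^ n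
    · rw [List.getD_append _ _ _ _ (by rw [h1]; exact hk2)]
      have := h2 k hk2
      rw [pidx_snoc] at this
      have e1 : 2 ^ n * (2 * pidx w + (if (false : Bool) = true then 1 else 0)) + k =
          2 ^ (n + 1) * pidx w + k := by
        simp only [Bool.false_eq_true, if_false]; ring
      rwa [e1] at this
    · push Not at hk2
      rw [List.getD_append_right _ _ _ _ (by rw [h1]; exact hk2), h1]
      rw [pow_succ] at hk
      have := h4 (k - 2 ^ n) (by omega)
      rw [pidx_snoc] at this
      have e1 : 2 ^ n * (2 * pidx w + (if (true : Bool) = true then 1 else 0)) + (k - 2 ^ n) =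
          2 ^ (n + 1) * pidx w + k := by
        simp only [if_true]
        have : 2 ^ n * (2 * pidx w + 1) = 2 ^ (n + 1) * pidx w + 2 ^ n := by ring
        omega
      rwa [e1] at this

/-- sums with coefficients of absolute value at most two -/
theorem three_sum (n : ℕ) (c : ℕ → ℤ) (hc : ∀ k < n, |c k| ≤ 2) :
    |∑ k ∈ Finset.range n, c k * 3 ^ k| < 3 ^ n ∧
      ((∃ k < n, c k ≠ 0) → ∑ k ∈ Finset.range n, c k * 3 ^ k ≠ 0) := by
  induction n generalizing c with
  | zero => simp
  | succ n ih =>
    obtain ⟨h1, h2⟩ := ih (fun k => c (k + 1)) (fun k hk => hc (k + 1) (by omega))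
    have h3 : ∑ k ∈ Finset.range (n + 1), c k * 3 ^ k =
        3 * ∑ k ∈ Finset.range n, c (k + 1) * 3 ^ k + c 0 := by
      rw [Finset.sum_range_succ', Finset.mul_sum, pow_zero, mul_one]
      congr 1
      refine Finset.sum_congr rfl fun k _ => ?_
      rw [pow_succ]; ring
    rw [h3]
    set T := ∑ k ∈ Finset.range n, c (k + 1) * 3 ^ k with hT
    have h0 := hc 0 (by omega)
    rw [abs_le] at h0
    constructor
    · rw [pow_succ]
      rw [abs_lt] at h1 ⊢
      constructor <;> [have := h1.1; have := h1.2] <;> omega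
    · rintro ⟨k, hk, hck⟩ h0'
      have hc0 : c 0 = 0 := by omega
      have hT0 : T = 0 := by omega
      rcases Nat.eq_zero_or_pos k with rfl | hkpos
      · exact hck hc0
      · refine h2 ⟨k - 1, by omega, ?_⟩ hT0
        have : k - 1 + 1 = k := by omega
        simpa [this] using hck

/-- the exponents -/
noncomputable def FF (M : ℕ) (k : ℕ) : ℤ :=
  if k < M then 3 ^ (M + k) else if k < 2 * M then -3 ^ (k - M) else
    ∑ m ∈ Finset.range M, 3 ^ m - ∑ m ∈ Finset.range M, 3 ^ (M + m)

theorem forest_mod (d : ℕ) :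
    (((forest d).map leaves).flatten).length = 2 * 2 ^ d + 1 ∧
    ∀ k, k < 2 * 2 ^ d + 1 →
      QQ d ∣ (((forest d).map leaves).flatten).getD k 0 - FF (2 ^ d) k := by
  obtain ⟨h1, h2⟩ := leaves_mod (ename d 0) (xp d) (fun k => 3 ^ (2 ^ d + k)) (QQ d)
    (fun u => ⟨3 ^ d, by rw [xp]; ring⟩) d []
  obtain ⟨h3, h4⟩ := leaves_mod (ename d 1) (xm d) (fun k => -3 ^ k) (QQ d)
    (fun u => ⟨-(2 ^ d * 2 ^ (u.count true)), by rw [xm]; ring⟩) d []
  have hfl : ((forest d).map leaves).flatten = leaves (tp d) ++ (leaves (tm d) ++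
      [-(wt (tp d) + wt (tm d))]) := by
    simp [forest, leaves]
  rw [hfl]
  change (leaves (tp d)).length = _ at h1
  change (leaves (tm d)).length = _ at h3
  refine ⟨by rw [List.length_append, List.length_append, h1, h3, List.length_singleton]; ring,
    fun k hk => ?_⟩
  by_cases hk1 : k < 2 ^ d
  · rw [List.getD_append _ _ _ _ (by rw [h1]; exact hk1)]
    have := h2 k hk1
    rw [pidx_nil, mul_zero, zero_add] at this
    rw [FF, if_pos hk1]
    exact this
  · push Not at hk1
    rw [List.getD_append_right _ _ _ _ (by rw [h1]; exact hk1), h1]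
    by_cases hk2 : k < 2 * 2 ^ d
    · rw [List.getD_append _ _ _ _ (by rw [h3]; omega)]
      have := h4 (k - 2 ^ d) (by omega)
      rw [pidx_nil, mul_zero, zero_add] at this
      rw [FF, if_neg (by omega), if_pos hk2]
      exact this
    · have hk3 : k = 2 * 2 ^ d := by omega
      rw [List.getD_append_right _ _ _ _ (by rw [h3]; omega), h3, FF, if_neg (by omega),
        if_neg hk2]
      have e0 : k - 2 ^ d - 2 ^ d = 0 := by omega
      rw [e0, List.getD_cons_zero]
      have s1 : wt (tp d) = ∑ k ∈ Finset.range (2 ^ d), (leaves (tp d)).getD k 0 := by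
        rw [← sum_take, ← h1, List.take_length]; rfl
      have s2 : wt (tm d) = ∑ k ∈ Finset.range (2 ^ d), (leaves (tm d)).getD k 0 := by
        rw [← sum_take, ← h3, List.take_length]; rfl
      have t1 : QQ d ∣ wt (tp d) - ∑ m ∈ Finset.range (2 ^ d), 3 ^ (2 ^ d + m) := by
        rw [s1, ← Finset.sum_sub_distrib]
        refine Finset.dvd_sum fun m hm => ?_
        have := h2 m (Finset.mem_range.1 hm)
        rw [pidx_nil, mul_zero, zero_add] at this
        exact this
      have t2 : QQ d ∣ wt (tm d) + ∑ m ∈ Finset.range (2 ^ d), 3 ^ m := by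
        rw [s2, ← Finset.sum_add_distrib]
        refine Finset.dvd_sum fun m hm => ?_
        have := h4 m (Finset.mem_range.1 hm)
        rw [pidx_nil, mul_zero, zero_add, sub_neg_eq_add] at this
        exact this
      have := (dvd_neg (α := ℤ)).2 (dvd_add t1 t2)
      have e1 : -(wt (tp d) + wt (tm d)) - (∑ m ∈ Finset.range (2 ^ d), (3 : ℤ) ^ m -
          ∑ m ∈ Finset.range (2 ^ d), 3 ^ (2 ^ d + m)) =
          -(wt (tp d) - ∑ m ∈ Finset.range (2 ^ d), 3 ^ (2 ^ d + m) +
          (wt (tm d) + ∑ m ∈ Finset.range (2 ^ d), 3 ^ m)) := by ring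
      rw [e1]
      exact this

/-- the sum of the exponents with coefficients -/
theorem FF_sum (M : ℕ) (u : ℕ → ℤ) :
    ∑ k ∈ Finset.range (2 * M + 1), u k * FF M k =
      ∑ k ∈ Finset.range (2 * M), (if k < M then u (2 * M) - u (M + k) else
        u (k - M) - u (2 * M)) * 3 ^ k := by
  have e2 : 2 * M = M + M := by ring
  rw [Finset.sum_range_succ]
  rw [show Finset.range (2 * M) = Finset.range (M + M) by rw [e2]]
  rw [Finset.sum_range_add, Finset.sum_range_add]
  have a1 : ∑ k ∈ Finset.range M, u k * FF M k = ∑ k ∈ Finset.range M, u k * 3 ^ (M + k) := by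
    refine Finset.sum_congr rfl fun k hk => ?_
    rw [FF, if_pos (Finset.mem_range.1 hk)]
  have a2 : ∑ k ∈ Finset.range M, u (M + k) * FF M (M + k) =
      -∑ k ∈ Finset.range M, u (M + k) * 3 ^ k := by
    rw [← Finset.sum_neg_distrib]
    refine Finset.sum_congr rfl fun k hk => ?_
    have := Finset.mem_range.1 hk
    rw [FF, if_neg (by omega), if_pos (by omega)]
    have : M + k - M = k := by omega
    rw [this]; ring
  have a3 : FF M (2 * M) = ∑ m ∈ Finset.range M, 3 ^ m - ∑ m ∈ Finset.range M, 3 ^ (M + m) := by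
    rw [FF, if_neg, if_neg (by omega)]
    intro h
    rcases Nat.eq_zero_or_pos M with rfl | hM
    · omega
    · omega
  have b1 : ∑ k ∈ Finset.range M, (if k < M then u (2 * M) - u (M + k) else
        u (k - M) - u (2 * M)) * 3 ^ k =
      u (2 * M) * ∑ k ∈ Finset.range M, 3 ^ k - ∑ k ∈ Finset.range M, u (M + k) * 3 ^ k := by
    rw [Finset.mul_sum, ← Finset.sum_sub_distrib]
    refine Finset.sum_congr rfl fun k hk => ?_
    rw [if_pos (Finset.mem_range.1 hk)]; ring
  have b2 : ∑ k ∈ Finset.range M, (if M + k < M then u (2 * M) - u (M + (M + k)) else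
        u (M + k - M) - u (2 * M)) * 3 ^ (M + k) =
      ∑ k ∈ Finset.range M, u k * 3 ^ (M + k) - u (2 * M) * ∑ k ∈ Finset.range M, 3 ^ (M + k) := by
    rw [Finset.mul_sum, ← Finset.sum_sub_distrib]
    refine Finset.sum_congr rfl fun k hk => ?_
    have : M + k - M = k := by omega
    rw [if_neg (by omega), this]; ring
  rw [a1, a2, a3, b1, b2]
  ring

theorem tdis : TdisStmt := by
  intro d hd i j i' j' h1 h2 h3 h4 heq
  set M := 2 ^ d with hM
  set L := ((forest d).map leaves).flatten with hL
  obtain ⟨hlen, hmod⟩ := forest_mod d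
  rw [← hM] at hlen hmod
  rw [← hL] at hlen hmod
  rw [hlen] at h4
  rw [sl_sum _ _ _ h1.le, sl_sum _ _ _ h3.le] at heq
  let u : ℕ → ℤ := fun k => (if i ≤ k ∧ k < j then 1 else 0) - (if i' ≤ k ∧ k < j' then 1 else 0)
  have c1 : ∀ a b : ℕ, b ≤ 2 * M + 1 → ∀ f : ℕ → ℤ, ∑ k ∈ Finset.Ico a b, f k =
      ∑ k ∈ Finset.range (2 * M + 1), (if a ≤ k ∧ k < b then 1 else 0) * f k := by
    intro a b hb f
    simp only [ite_mul, one_mul, zero_mul]
    rw [← Finset.sum_filter]
    refine Finset.sum_congr ?_ fun _ _ => rfl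
    ext k
    simp only [Finset.mem_Ico, Finset.mem_filter, Finset.mem_range]
    omega
  have h5 : ∑ k ∈ Finset.range (2 * M + 1), u k * L.getD k 0 = 0 := by
    rw [c1 i j (by omega), c1 i' j' h4] at heq
    have : ∑ k ∈ Finset.range (2 * M + 1), u k * L.getD k 0 =
        ∑ k ∈ Finset.range (2 * M + 1), (if i ≤ k ∧ k < j then 1 else 0) * L.getD k 0 -
        ∑ k ∈ Finset.range (2 * M + 1), (if i' ≤ k ∧ k < j' then 1 else 0) * L.getD k 0 := by
      rw [← Finset.sum_sub_distrib]
      refine Finset.sum_congr rfl fun k _ => ?_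
      simp only [u]; ring
    rw [this, heq, sub_self]
  have h6 : QQ d ∣ ∑ k ∈ Finset.range (2 * M + 1), u k * FF M k := by
    have h7 : QQ d ∣ ∑ k ∈ Finset.range (2 * M + 1), u k * (L.getD k 0 - FF M k) :=
      Finset.dvd_sum fun k hk => Dvd.dvd.mul_left (hmod k (Finset.mem_range.1 hk)) _
    have h8 : ∑ k ∈ Finset.range (2 * M + 1), u k * (L.getD k 0 - FF M k) =
        -∑ k ∈ Finset.range (2 * M + 1), u k * FF M k := by
      simp only [mul_sub]
      rw [Finset.sum_sub_distrib, h5, zero_sub]
    rw [h8] at h7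
    exact (dvd_neg (α := ℤ)).1 h7
  rw [FF_sum] at h6
  have hu : ∀ k, u k = 1 ∨ u k = 0 ∨ u k = -1 := by
    intro k
    simp only [u]
    split_ifs <;> simp
  have hu2 : u (2 * M) = 0 ∨ u (2 * M) = -1 := by
    simp only [u]
    rw [if_neg (by omega)]
    split_ifs <;> simp
  have hu3 : u i = 1 := by
    simp only [u]
    rw [if_pos (by omega), if_neg (by omega)]
    simp
  obtain ⟨g1, g2⟩ := three_sum (2 * M) (fun k => if k < M then u (2 * M) - u (M + k) else
        u (k - M) - u (2 * M)) (by
      intro k hk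
      rw [abs_le]
      split_ifs
      · rcases hu (M + k) with h | h | h <;> rcases hu2 with h' | h' <;> rw [h, h'] <;> norm_num
      · rcases hu (k - M) with h | h | h <;> rcases hu2 with h' | h' <;> rw [h, h'] <;> norm_num)
  refine g2 ?_ (Int.eq_zero_of_abs_lt_dvd h6 (lt_of_lt_of_le g1 ?_))
  · by_cases hi : i < M
    · refine ⟨M + i, by omega, ?_⟩
      have : M + i - M = i := by omega
      rw [if_neg (by omega), this, hu3]
      rcases hu2 with h' | h' <;> rw [h'] <;> norm_num
    · refine ⟨i - M, by omega, ?_⟩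
      have : M + (i - M) = i := by omega
      rw [if_pos (by omega), this, hu3]
      rcases hu2 with h' | h' <;> rw [h'] <;> norm_num
  · rw [QQ_eq, ← hM]
    have : 2 * M = M + M := by ring
    rw [this]
    have : (0 : ℤ) < 3 ^ (M + M) := by positivity
    linarith

end Pool.Agent.Idx.H9
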