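import Pool.Agent.Helper85_Idx.Stmts

/-!
# TSUM and TDIS: weights of the subtrees of the forest, ranges of leaves
-/

set_option autoImplicit false

namespace Pool.Agent.Idx.H9

theorem pidx_snoc (w : List Bool) (b : Bool) :
    pidx (w ++ [b]) = 2 * pidx w + (if b then 1 else 0) := by
  simp [pidx, List.foldl_append]

theorem pidx_nil : pidx [] = 0 := rfl

theorem pidx_lt (w : List Bool) : pidx w + 1 ≤ 2 ^ w.length := by
  induction w using List.reverseRecOn with
  | nil => simp [pidx]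
  | append_singleton w b ih =>
    rw [pidx_snoc, List.length_append, List.length_singleton, pow_succ]
    split_ifs <;> omega

theorem wt_leaf {V : Type} (e : V) (m : ℤ) : wt (BT.leaf e m) = m := by
  simp [wt, leaves]

theorem wt_node {V : Type} (e : V) (l r : BT V) : wt (BT.node e l r) = wt l + wt r := by
  simp [wt, leaves]

theorem wt_p {V : Type} (e : List Bool → V) (d n : ℕ) (w : List Bool) :
    2 * wt (cbt e (xp d) n w) = 2 * (QQ d * 3 ^ d * 2 ^ n) +
      (3 ^ (2 ^ d + 2 ^ n * (pidx w + 1)) - 3 ^ (2 ^ d + 2 ^ n * pidx w)) := by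
  induction n generalizing w with
  | zero =>
    rw [cbt, wt_leaf, xp]
    simp only [pow_zero, one_mul, mul_one]
    rw [← add_assoc, pow_succ _ (2 ^ d + pidx w)]
    ring
  | succ n ih =>
    rw [cbt, wt_node, mul_add, ih, ih, pidx_snoc, pidx_snoc]
    have e1 : 2 ^ d + 2 ^ n * (2 * pidx w + (if (false : Bool) = true then 1 else 0)) =
        2 ^ d + 2 ^ (n + 1) * pidx w := by
      simp only [Bool.false_eq_true, if_false]; ring
    have e2 : 2 ^ d + 2 ^ n * (2 * pidx w + (if (true : Bool) = true then 1 else 0) + 1) =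
        2 ^ d + 2 ^ (n + 1) * (pidx w + 1) := by
      simp only [if_true]; ring
    have e3 : 2 ^ d + 2 ^ n * (2 * pidx w + (if (false : Bool) = true then 1 else 0) + 1) =
        2 ^ d + 2 ^ n * (2 * pidx w + (if (true : Bool) = true then 1 else 0)) := by
      simp only [Bool.false_eq_true, if_false, if_true, add_zero]
    rw [e1, e2, e3, pow_succ _ n]
    ring

theorem wt_m {V : Type} (e : List Bool → V) (d n : ℕ) (w : List Bool) :
    2 * -wt (cbt e (xm d) n w) = 2 * (QQ d * 2 ^ d * 2 ^ (w.count true) * 3 ^ n) +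
      (3 ^ (2 ^ n * (pidx w + 1)) - 3 ^ (2 ^ n * pidx w)) := by
  induction n generalizing w with
  | zero =>
    rw [cbt, wt_leaf, xm]
    simp only [pow_zero, one_mul, mul_one]
    rw [pow_succ _ (pidx w)]
    ring
  | succ n ih =>
    rw [cbt, wt_node]
    have h1 := ih (w ++ [false])
    have h2 := ih (w ++ [true])
    rw [pidx_snoc, List.count_append] at h1 h2
    have e1 : 2 ^ n * (2 * pidx w + (if (false : Bool) = true then 1 else 0)) =
        2 ^ (n + 1) * pidx w := by
      simp only [Bool.false_eq_true, if_false]; ring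
    have e2 : 2 ^ n * (2 * pidx w + (if (true : Bool) = true then 1 else 0) + 1) =
        2 ^ (n + 1) * (pidx w + 1) := by
      simp only [if_true]; ring
    have e3 : 2 ^ n * (2 * pidx w + (if (false : Bool) = true then 1 else 0) + 1) =
        2 ^ n * (2 * pidx w + (if (true : Bool) = true then 1 else 0)) := by
      simp only [Bool.false_eq_true, if_false, if_true, add_zero]
    have c1 : List.count true [false] = 0 := by decide
    have c2 : List.count true [true] = 1 := by decide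
    rw [e1, e3, c1] at h1
    rw [e2, c2, pow_succ] at h2
    rw [pow_succ _ n]
    linear_combination h1 + h2

theorem subs_cbt {V : Type} (e : List Bool → V) (x : List Bool → ℤ) (n : ℕ) (w : List Bool)
    (t : BT V) (ht : t ∈ subs (cbt e x n w)) :
    ∃ n' w', n' ≤ n ∧ w'.length + n' = w.length + n ∧ t = cbt e x n' w' := by
  induction n generalizing w with
  | zero =>
    rw [cbt, subs, List.mem_singleton] at ht
    exact ⟨0, w, le_rfl, rfl, by rw [ht, cbt]⟩
  | succ n ih =>
    rw [cbt, subs, List.mem_cons, List.mem_append] at ht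
    rcases ht with ht | ht | ht
    · exact ⟨n + 1, w, le_rfl, rfl, by rw [ht, cbt]⟩
    · obtain ⟨n', w', h1, h2, h3⟩ := ih _ ht
      refine ⟨n', w', by omega, ?_, h3⟩
      rw [h2, List.length_append, List.length_singleton]; omega
    · obtain ⟨n', w', h1, h2, h3⟩ := ih _ ht
      refine ⟨n', w', by omega, ?_, h3⟩
      rw [h2, List.length_append, List.length_singleton]; omega

theorem leaves_cbt {V : Type} (e : List Bool → V) (x : List Bool → ℤ) (n : ℕ) (w : List Bool)
    (y : ℤ) (hy : y ∈ leaves (cbt e x n w)) :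
    ∃ w', w'.length = w.length + n ∧ y = x w' := by
  induction n generalizing w with
  | zero =>
    rw [cbt, leaves, List.mem_singleton] at hy
    exact ⟨w, rfl, hy⟩
  | succ n ih =>
    rw [cbt, leaves, List.mem_append] at hy
    rcases hy with hy | hy
    · obtain ⟨w', h2, h3⟩ := ih _ hy
      refine ⟨w', ?_, h3⟩
      rw [h2, List.length_append, List.length_singleton]; omega
    · obtain ⟨w', h2, h3⟩ := ih _ hy
      refine ⟨w', ?_, h3⟩
      rw [h2, List.length_append, List.length_singleton]; omega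

theorem QQ_pos (d : ℕ) : 0 < QQ d := by unfold QQ; positivity

theorem QQ_eq (d : ℕ) : QQ d = 3 * 3 ^ (2 ^ d + 2 ^ d) := by
  unfold QQ
  rw [pow_succ _ (2 ^ (d + 1)), pow_succ _ d]
  have : 2 ^ d * 2 = 2 ^ d + 2 ^ d := by ring
  rw [this]; ring

/-- comparison of the small parts with the modulus -/
theorem small_le (d a : ℕ) (ha : a ≤ 2 ^ d + 2 ^ d) : (3 : ℤ) ^ a ≤ 3 ^ (2 ^ d + 2 ^ d) :=
  pow_le_pow_right₀ (by norm_num) ha

theorem blk_le (d n : ℕ) (w : List Bool) (h : w.length + n = d) :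
    2 ^ n * (pidx w + 1) ≤ 2 ^ d := by
  calc 2 ^ n * (pidx w + 1) ≤ 2 ^ n * 2 ^ w.length := Nat.mul_le_mul_left _ (pidx_lt w)
    _ = 2 ^ d := by rw [← pow_add, ← h]; congr 1; omega

theorem boundp {V : Type} (e : List Bool → V) (d n : ℕ) (w : List Bool)
    (h : w.length + n = d) :
    QQ d * (3 ^ d * 2 ^ n) ≤ wt (cbt e (xp d) n w) ∧
      wt (cbt e (xp d) n w) ≤ QQ d * (3 ^ d * 2 ^ n) + QQ d := by
  have h1 := wt_p e d n w
  have h2 := blk_le d n w h
  have h3 := small_le d (2 ^ d + 2 ^ n * (pidx w + 1)) (by omega)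
  have h4 : (3 : ℤ) ^ (2 ^ d + 2 ^ n * pidx w) ≤ 3 ^ (2 ^ d + 2 ^ n * (pidx w + 1)) :=
    pow_le_pow_right₀ (by norm_num)
      (Nat.add_le_add_left (Nat.mul_le_mul_left _ (Nat.le_succ _)) _)
  have h5 : (0 : ℤ) < 3 ^ (2 ^ d + 2 ^ n * pidx w) := by positivity
  have h6 := QQ_eq d
  have h7 : QQ d * 3 ^ d * 2 ^ n = QQ d * (3 ^ d * 2 ^ n) := by ring
  constructor <;> nlinarith

theorem boundm {V : Type} (e : List Bool → V) (d n : ℕ) (w : List Bool)
    (h : w.length + n = d) :
    QQ d * (2 ^ (d + w.count true) * 3 ^ n) ≤ -wt (cbt e (xm d) n w) ∧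
      -wt (cbt e (xm d) n w) ≤ QQ d * (2 ^ (d + w.count true) * 3 ^ n) + QQ d := by
  have h1 := wt_m e d n w
  have h2 := blk_le d n w h
  have h3 := small_le d (2 ^ n * (pidx w + 1)) (by omega)
  have h4 : (3 : ℤ) ^ (2 ^ n * pidx w) ≤ 3 ^ (2 ^ n * (pidx w + 1)) :=
    pow_le_pow_right₀ (by norm_num) (Nat.mul_le_mul_left _ (Nat.le_succ _))
  have h5 : (0 : ℤ) < 3 ^ (2 ^ n * pidx w) := by positivity
  have h6 := QQ_eq d
  have h7 : QQ d * 2 ^ d * 2 ^ (w.count true) * 3 ^ n =
      QQ d * (2 ^ (d + w.count true) * 3 ^ n) := by rw [pow_add]; ring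
  constructor <;> nlinarith

theorem wt_sum (d : ℕ) :
    2 * (wt (tp d) + wt (tm d)) = ((3 : ℤ) ^ (2 ^ d) - 1) ^ 2 := by
  have h1 := wt_p (ename d 0) d d []
  have h2 := wt_m (ename d 1) d d []
  rw [pidx_nil, zero_add, mul_one, mul_zero, add_zero] at h1
  rw [pidx_nil, zero_add, mul_one, mul_zero, pow_zero, List.count_nil, pow_zero] at h2
  rw [tp, tm]
  have h3 : (3 : ℤ) ^ (2 ^ d + 2 ^ d) = 3 ^ (2 ^ d) * 3 ^ (2 ^ d) := pow_add _ _ _
  rw [h3] at h1
  linear_combination h1 - h2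

theorem wt_sum_bd (d : ℕ) : 0 < wt (tp d) + wt (tm d) ∧
    2 * (wt (tp d) + wt (tm d)) < 3 ^ (2 ^ d + 2 ^ d) := by
  have h := wt_sum d
  have h1 : (3 : ℤ) ≤ 3 ^ (2 ^ d) := by
    calc (3 : ℤ) = 3 ^ 1 := by norm_num
      _ ≤ 3 ^ (2 ^ d) := pow_le_pow_right₀ (by norm_num) Nat.one_le_two_pow
  have h3 : (3 : ℤ) ^ (2 ^ d + 2 ^ d) = 3 ^ (2 ^ d) * 3 ^ (2 ^ d) := pow_add _ _ _
  rw [h3]
  constructor <;> nlinarith

theorem xp_bd (d : ℕ) (w : List Bool) (h : w.length = d) :
    0 < xp d w ∧ xp d w ≤ QQ d * 3 ^ d + QQ d := by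
  have h1 := pidx_lt w
  rw [h] at h1
  have h3 := small_le d (2 ^ d + pidx w) (by omega)
  have h5 : (0 : ℤ) < 3 ^ (2 ^ d + pidx w) := by positivity
  have h6 := QQ_eq d
  have h7 := QQ_pos d
  rw [xp]
  constructor
  · positivity
  · nlinarith

theorem xm_bd (d : ℕ) (w : List Bool) (h : w.length = d) :
    xm d w < 0 ∧ -xm d w ≤ QQ d * 4 ^ d + QQ d := by
  have h1 := pidx_lt w
  rw [h] at h1
  have h3 := small_le d (pidx w) (by omega)
  have h5 : (0 : ℤ) < 3 ^ (pidx w) := by positivity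
  have h6 := QQ_eq d
  have h7 := QQ_pos d
  rw [xm]
  constructor
  · have : (0 : ℤ) < QQ d * 2 ^ d * 2 ^ (w.count true) := by positivity
    linarith
  · have h8 : w.count true ≤ d := by rw [← h]; exact List.count_le_length
    have h9 : (2 : ℤ) ^ (w.count true) ≤ 2 ^ d := pow_le_pow_right₀ (by norm_num) h8
    have h10 : QQ d * 2 ^ d * 2 ^ (w.count true) ≤ QQ d * 2 ^ d * 2 ^ d :=
      mul_le_mul_of_nonneg_left h9 (by positivity)
    have h11 : (4 : ℤ) ^ d = 2 ^ d * 2 ^ d := by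
      rw [← mul_pow]; norm_num
    rw [h11]
    nlinarith

theorem tsum : TsumStmt := by
  intro d hd
  have hQ := QQ_pos d
  have hQ2 := QQ_eq d
  have h34 : (3 : ℤ) ^ d ≤ 4 ^ d := pow_le_pow_left₀ (by norm_num) (by norm_num) d
  have h4 : (1 : ℤ) ≤ 4 ^ d := one_le_pow₀ (by norm_num)
  have h6 : (3 : ℤ) ^ d * 2 ^ d = 6 ^ d := by rw [← mul_pow]; norm_num
  have hsum := wt_sum_bd d
  refine ⟨?_, ?_, ?_, ?_, ?_, ?_, ?_, ?_⟩
  · intro t ht
    obtain ⟨n', w', h1, h2, rfl⟩ := subs_cbt _ _ _ _ _ ht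
    rw [List.length_nil, zero_add] at h2
    refine ⟨d - n', Nat.sub_le _ _, ?_⟩
    have h3 : d - (d - n') = n' := by omega
    rw [h3]
    exact boundp _ d n' w' h2
  · intro t ht
    obtain ⟨n', w', h1, h2, rfl⟩ := subs_cbt _ _ _ _ _ ht
    rw [List.length_nil, zero_add] at h2
    refine ⟨d - n', Nat.sub_le _ _, w'.count true, ?_, ?_⟩
    · have : w'.count true ≤ w'.length := List.count_le_length
      omega
    have h3 : d - (d - n') = n' := by omega
    rw [h3]
    exact boundm _ d n' w' h2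
  · have := boundp (ename d 0) d d [] (by simp)
    rw [h6] at this
    exact this
  · have := boundm (ename d 1) d d [] (by simp)
    rw [List.count_nil, add_zero, mul_comm ((2 : ℤ) ^ d) (3 ^ d), h6] at this
    exact this
  · refine ⟨hsum.1, ?_⟩
    nlinarith [hsum.2]
  · intro x hx
    simp only [forest, List.map_cons, List.map_nil, List.flatten_cons, List.flatten_nil,
      List.mem_append, leaves, List.mem_singleton, List.append_nil] at hx
    rcases hx with hx | hx | hx
    · obtain ⟨w', h2, rfl⟩ := leaves_cbt _ _ _ _ _ hx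
      rw [List.length_nil, zero_add] at h2
      obtain ⟨h3, h5⟩ := xp_bd d w' h2
      refine ⟨h3.ne', ?_⟩
      rw [abs_of_pos h3]
      nlinarith
    · obtain ⟨w', h2, rfl⟩ := leaves_cbt _ _ _ _ _ hx
      rw [List.length_nil, zero_add] at h2
      obtain ⟨h3, h5⟩ := xm_bd d w' h2
      refine ⟨h3.ne, ?_⟩
      rw [abs_of_neg h3]
      nlinarith
    · obtain ⟨h3, h5⟩ := hsum
      subst hx
      refine ⟨by linarith [h3] |> fun h : -(wt (tp d) + wt (tm d)) < 0 => h.ne, ?_⟩
      rw [abs_neg, abs_of_pos h3]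
      nlinarith
  · intro x hx
    obtain ⟨w', h2, rfl⟩ := leaves_cbt _ _ _ _ _ hx
    exact (xp_bd d w' (by simpa using h2)).1
  · intro x hx
    obtain ⟨w', h2, rfl⟩ := leaves_cbt _ _ _ _ _ hx
    exact (xm_bd d w' (by simpa using h2)).1

end Pool.Agent.Idx.H9
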